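import Pool.Agent.Q46.ND.StmS

set_option autoImplicit false

/-! Jobs SA, SG1, SG2 of project ND (helper46). -/

open MvPolynomial NumberField Filter
open scoped Classical

namespace Pool.Agent.Q195.ND

open Pool.Agent.Q46.ND

theorem t_SA : P_SA := by
  intro K ι _ _ _ ω H
  have hinj : Function.Injective (fun c : ι → ℤ => ∑ i, c i • ω i) := by
    intro c c' h
    have h1 : ω.equivFun.symm c = ω.equivFun.symm c' := by
      rw [Module.Basis.equivFun_symm_apply, Module.Basis.equivFun_symm_apply]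
      exact h
    exact ω.equivFun.symm.injective h1
  refine ⟨?_, ?_, ?_⟩
  · intro a
    unfold box
    rw [Finset.mem_image]
    constructor
    · rintro ⟨c, hc, rfl⟩ i
      rw [Fintype.mem_piFinset] at hc
      have h1 : ω.repr (∑ i, c i • ω i) i = c i := by
        rw [Module.Basis.repr_sum_self]
      rw [h1, abs_le]
      exact Finset.mem_Icc.mp (hc i)
    · intro h
      refine ⟨fun i => ω.repr a i, ?_, ω.sum_repr a⟩
      rw [Fintype.mem_piFinset]
      intro i
      rw [Finset.mem_Icc]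
      exact abs_le.mp (h i)
  · unfold box
    rw [Finset.card_image_of_injective _ hinj, Fintype.card_piFinset, Finset.prod_const,
      Int.card_Icc, Finset.card_univ]
    congr 1
    omega
  · intro J _
    unfold boxJ
    rw [Fintype.card_piFinset, Finset.prod_const, Finset.card_univ]

lemma mem_boxJ {K ι : Type} [Field K] [NumberField K] [Fintype ι]
    (ω : Module.Basis ι ℤ (𝓞 K)) {J : Type} [Fintype J] (H : ℕ) (g : J → 𝓞 K) :
    g ∈ boxJ ω J H ↔ ∀ j, g j ∈ box ω H := by
  unfold boxJ
  rw [Fintype.mem_piFinset]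

theorem t_SG1 : P_SG1 := by
  intro K ι J _ _ _ _ ω i₀ Q T H N h1 h2
  set F := (boxJ ω J H).filter Q with hF
  set G := (boxJ ω {j : J // j ≠ i₀} H).filter T with hG
  have hmap : ∀ g ∈ F, (fun j : {j : J // j ≠ i₀} => g j.1) ∈ G := by
    intro g hg
    rw [hF, Finset.mem_filter] at hg
    rw [hG, Finset.mem_filter]
    refine ⟨?_, h1 g hg.1 hg.2⟩
    have h3 := hg.1
    rw [mem_boxJ] at h3 ⊢
    intro j
    exact h3 j.1
  refine Finset.card_le_mul_card_image_of_maps_to hmap N ?_
  intro g' hg'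
  rw [hG, Finset.mem_filter] at hg'
  by_cases hne : (F.filter fun g => (fun j : {j : J // j ≠ i₀} => g j.1) = g').Nonempty
  · obtain ⟨g, hg⟩ := hne
    rw [Finset.mem_filter, hF, Finset.mem_filter] at hg
    refine le_trans ?_ (h2 g hg.1.1 (by rw [hg.2]; exact hg'.2))
    apply Finset.card_le_card_of_injOn (fun f => f i₀)
    · intro f hf
      rw [Finset.mem_coe, Finset.mem_filter, hF, Finset.mem_filter] at hf
      have h5 : Function.update g i₀ (f i₀) = f := by
        funext j
        by_cases hj : j = i₀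
        · subst hj; simp
        · rw [Function.update_of_ne hj]
          have e1 := congrFun hg.2 ⟨j, hj⟩
          have e2 := congrFun hf.2 ⟨j, hj⟩
          simp only at e1 e2
          rw [e1, e2]
      rw [Finset.mem_coe, Finset.mem_filter]
      refine ⟨?_, ?_⟩
      · exact (mem_boxJ ω H f).mp hf.1.1 i₀
      · simp only [h5]
        exact hf.1.2
    · intro f hf f' hf' hff
      rw [Finset.mem_coe, Finset.mem_filter] at hf hf'
      funext j
      by_cases hj : j = i₀
      · subst hj; exact hff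
      · have e1 := congrFun hf.2 ⟨j, hj⟩
        have e2 := congrFun hf'.2 ⟨j, hj⟩
        simp only at e1 e2
        rw [e1, e2]
  · rw [Finset.not_nonempty_iff_eq_empty] at hne
    rw [hne]
    simp

theorem t_SG2 : P_SG2 := by
  intro K ι J _ _ _ _ ω i₀ m Bad 𝔭 h𝔭 hB W hW a₀ H μ hμ g
  set a := pt a₀ W g with ha
  obtain ⟨Z, hZ, hZc⟩ := hB a
  have hupd : ∀ c, pt a₀ W (Function.update g i₀ c)
      = Function.update a i₀ (a₀ i₀ + (W : 𝓞 K) * c) := by
    intro c
    funext j
    by_cases hj : j = i₀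
    · subst hj; simp [pt]
    · rw [Function.update_of_ne hj]
      simp [pt, ha, Function.update_of_ne hj]
  -- inverse of `W` modulo `𝔭`
  obtain ⟨w, hw⟩ : ∃ w : 𝓞 K, (W : 𝓞 K) * w - 1 ∈ 𝔭 := by
    have := Ideal.IsMaximal.exists_inv h𝔭 hW
    obtain ⟨y, i, hi, hy⟩ := this
    refine ⟨y, ?_⟩
    have : (W : 𝓞 K) * y - 1 = -i := by
      rw [← hy]; ring
    rw [this]
    exact 𝔭.neg_mem hi
  have hsub : ((box ω H).filter fun c => Bad (pt a₀ W (Function.update g i₀ c))) ⊆
      Z.biUnion fun z => (box ω H).filter fun c => c - w * (z - a₀ i₀) ∈ 𝔭 := by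
    intro c hc
    rw [Finset.mem_filter] at hc
    rw [hupd] at hc
    obtain ⟨z, hz, hcz⟩ := hZc _ hc.2
    rw [Finset.mem_biUnion]
    refine ⟨z, hz, ?_⟩
    rw [Finset.mem_filter]
    refine ⟨hc.1, ?_⟩
    have e : c - w * (z - a₀ i₀) = w * (a₀ i₀ + (W : 𝓞 K) * c - z) - c * ((W : 𝓞 K) * w - 1) := by
      ring
    rw [e]
    exact 𝔭.sub_mem (𝔭.mul_mem_left _ hcz) (𝔭.mul_mem_left _ hw)
  refine (Finset.card_le_card hsub).trans ?_
  refine Finset.card_biUnion_le.trans ?_
  refine (Finset.sum_le_card_nsmul _ _ μ fun z _ => hμ _).trans ?_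
  rw [smul_eq_mul]
  exact Nat.mul_le_mul_right _ hZ

end Pool.Agent.Q195.ND
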