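import Pool.Agent.Q46.ND.StmF
import Pool.Agent.Q195.ND.SA

set_option autoImplicit false

/-! Jobs FF, FG of project ND (helper46). -/

open MvPolynomial NumberField Filter
open scoped Classical

namespace Pool.Agent.Q195.ND

open Pool.Agent.Q46.ND

lemma coeff_form {A : Type} [CommRing A] {m d : ℕ} (a : Mon m d → A) (α : Mon m d) :
    coeff α.1 (form a) = a α := by
  unfold form
  rw [coeff_sum]
  rw [Finset.sum_eq_single α]
  · rw [coeff_monomial, if_pos rfl]
  · intro β _ hβ
    rw [coeff_monomial, if_neg]
    intro h
    exact hβ (Subtype.ext h)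
  · intro h
    exact absurd (Finset.mem_univ _) h

lemma form_hom {A : Type} [CommRing A] {m d : ℕ} (a : Mon m d → A) :
    (form a).IsHomogeneous d := by
  unfold form
  apply IsHomogeneous.sum
  intro α _
  exact isHomogeneous_monomial _ α.2

lemma form_injective {A : Type} [CommRing A] {m d : ℕ} :
    Function.Injective (form : (Mon m d → A) → MvPolynomial (Fin (m + 1)) A) := by
  intro a b h
  funext α
  rw [← coeff_form a, ← coeff_form b, h]

lemma form_coeff {A : Type} [CommRing A] {m d : ℕ} (F : MvPolynomial (Fin (m + 1)) A)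
    (hF : F.IsHomogeneous d) : F = form (m := m) (d := d) fun α => coeff α.1 F := by
  ext β
  by_cases h : β.degree = d
  · exact (coeff_form (fun α : Mon m d => coeff α.1 F) ⟨β, h⟩).symm
  · rw [hF.coeff_eq_zero h]
    have := form_hom (m := m) (d := d) fun α => coeff α.1 F
    rw [this.coeff_eq_zero h]

theorem t_FF (_ : P_SA) : P_FF := by
  intro K ι _ _ _ ω m d
  refine ⟨?_, ?_, fun F hF => form_coeff F hF⟩
  · intro H P
    have hset : {F : MvPolynomial (Fin (m + 1)) (𝓞 K) | (F.IsHomogeneous d ∧
        ∀ α i, |ω.repr (coeff α F) i| ≤ (H : ℤ)) ∧ P F} =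
        form '' (↑((boxJ ω (Mon m d) H).filter fun g => P (form g)) :
          Set (Mon m d → 𝓞 K)) := by
      ext F
      simp only [Set.mem_ofPred_eq, Set.mem_image, Finset.mem_coe, Finset.mem_filter, mem_boxJ]
      constructor
      · rintro ⟨⟨h1, h2⟩, h3⟩
        refine ⟨fun α => coeff α.1 F, ⟨?_, ?_⟩, (form_coeff F h1).symm⟩
        · intro α
          rw [(t_SA ω H).1]
          exact h2 α.1
        · rw [← form_coeff F h1]
          exact h3
      · rintro ⟨g, ⟨h1, h2⟩, rfl⟩
        refine ⟨⟨form_hom g, ?_⟩, h2⟩
        intro β i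
        by_cases h : β.degree = d
        · have := coeff_form g ⟨β, h⟩
          simp only at this
          rw [this]
          exact (t_SA ω H).1 _ |>.mp (h1 _) i
        · rw [(form_hom g).coeff_eq_zero h]
          simp
    rw [hset, Set.ncard_image_of_injective _ form_injective, Set.ncard_coe_finset]
  · intro a₀ W g
    unfold form
    rw [Finset.mul_sum, ← Finset.sum_add_distrib]
    apply Finset.sum_congr rfl
    intro α _
    rw [C_mul_monomial, ← map_add]
    rfl

end Pool.Agent.Q195.ND
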