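import Pool.Agent.Q46.ND.StmF

set_option autoImplicit false

/-! Job FG of project ND (helper46). -/

open MvPolynomial NumberField Filter
open scoped Classical

namespace Pool.Agent.Q195.ND

open Pool.Agent.Q46.ND

lemma exists_residue {O : Type} [CommRing O] (𝔭 : Ideal O) (h : 𝔭.IsMaximal) :
    ∃ (k : Type) (_ : Field k) (φ : O →+* k), RingHom.ker φ = 𝔭 ∧ Function.Surjective φ :=
  ⟨O ⧸ 𝔭, Ideal.Quotient.field 𝔭, Ideal.Quotient.mk 𝔭, Ideal.mk_ker,
    Ideal.Quotient.mk_surjective⟩

lemma eval_key {O k I J : Type} [CommRing O] [CommRing k] (φ : O →+* k) (r : I → J)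
    (P : MvPolynomial I ℤ) (a : J → O) :
    φ (eval a (rename r (map (Int.castRingHom O) P))) = aeval (fun i => φ (a (r i))) P := by
  rw [eval_rename, eval_map, eval₂_comp_left, aeval_def]
  congr 1
  exact RingHom.ext_int _ _

lemma map_form {A B : Type} [CommRing A] [CommRing B] (φ : A →+* B) {m d : ℕ}
    (a : Mon m d → A) : map φ (form a) = form fun α => φ (a α) := by
  unfold form
  rw [map_sum]
  apply Finset.sum_congr rfl
  intro α _
  rw [map_monomial]

lemma perm_injective {m d : ℕ} (σ : Equiv.Perm (Fin (m + 1))) :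
    Function.Injective (perm (m := m) (d := d) σ) := by
  intro α β h
  have h1 := congrArg Subtype.val h
  apply Subtype.ext
  ext i
  have h2 := DFunLike.congr_fun h1 (σ i)
  simpa [perm, Finsupp.equivMapDomain_apply] using h2

lemma update_inst {α β : Type} (i1 i2 : DecidableEq α) (f : α → β) (a : α) (b : β) :
    @Function.update α (fun _ => β) i1 f a b = @Function.update α (fun _ => β) i2 f a b := by
  cases Subsingleton.elim i1 i2
  rfl

lemma aeval_update {k I : Type} [CommRing k] [DecidableEq I] (P : MvPolynomial I ℤ) (a : I → k) (i₀ : I)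
    (h : i₀ ∉ P.vars) (c : k) :
    aeval (Function.update a i₀ c) P = aeval a P := by
  rw [aeval_def, aeval_def]
  apply eval₂Hom_congr' rfl _ rfl
  intro i hi _
  rw [Function.update_of_ne]
  rintro rfl
  exact h hi

theorem t_FG (h1 : P_SM) (h2 : P_EM) (h3 : P_EO) (h4 : P_FE) : P_FG := by
  intro K ι _ _ _ ω n d hn hd
  obtain ⟨Δ, χ, R, hΔ, _, hR, hv, hk⟩ := h2 (n + 1) d (by omega) hd
  set f : ℤ →+* 𝓞 K := Int.castRingHom (𝓞 K) with hf
  have hinj : Function.Injective f := by
    rw [hf]
    exact (algebraMap ℤ (𝓞 K)).injective_int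
  set σ : Fin (n + 2) → Mon (n + 1) d → Mon (n + 1) d := fun i => perm (Equiv.swap 0 i) with hσ
  have hσi : ∀ i, Function.Injective (σ i) := fun i => perm_injective _
  set v : Fin (n + 2) → Mon (n + 1) d := fun i => σ i (v0 (n + 1) d) with hv'
  set r : ∀ i, {j : Mon (n + 1) d // j ≠ v0 (n + 1) d} → {j : Mon (n + 1) d // j ≠ v i} :=
    fun i j => ⟨σ i j.1, fun h => j.2 (hσi i h)⟩ with hr
  have hri : ∀ i, Function.Injective (r i) := by
    intro i x y h
    apply Subtype.ext
    exact hσi i (congrArg Subtype.val h)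
  have hmapΔ : map f Δ ≠ 0 := by
    intro h
    apply hΔ
    apply map_injective f hinj
    rw [h, map_zero]
  have hvars : v0 (n + 1) d ∉ Δ.vars := by
    intro h
    have := hv _ h
    simp [v0] at this
    omega
  have hcop : ∀ Q : MvPolynomial (Mon (n + 1) d) K,
      (∀ i : Fin (n + 2), Q ∣ map (algebraMap (𝓞 K) K) (rename (σ i) (map f Δ))) → IsUnit Q := by
    apply h4.2 (by omega) (map f Δ) hmapΔ
    intro α hα
    exact hv α (vars_map _ _ hα)
  set B : Fin (n + 2) → (Mon (n + 1) d → 𝓞 K) → Ideal (𝓞 K) → Prop := fun i a 𝔭 =>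
    eval a (rename (σ i) (map f Δ)) ∉ 𝔭 ∧
    eval (fun j : {j : Mon (n + 1) d // j ≠ v i} => a j.1) (rename (r i) (map f R)) ∈ 𝔭 ∧
    eval a (rename (σ i) (map f χ)) ∈ 𝔭 with hB
  obtain ⟨C, hC⟩ := h1 ω (fun i : Fin (n + 2) => rename (σ i) (map f Δ)) hcop v
    (fun i => rename (r i) (map f R)) (by
      intro i h
      apply hR
      apply map_injective f hinj
      apply rename_injective (r i) (hri i)
      rw [map_zero, map_zero]
      exact h) ((d - 1) ^ (n + 1)) B (fun i a 𝔭 h => h.2.1) (by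
      intro i a 𝔭 h𝔭
      obtain ⟨k, _, φ, hφ, hφs⟩ := exists_residue 𝔭 h𝔭
      have hmem : ∀ x, x ∈ 𝔭 ↔ φ x = 0 := by
        intro x
        rw [← hφ, RingHom.mem_ker]
      have hupd : ∀ (i1 i2 : DecidableEq (Mon (n + 1) d)) (c : 𝓞 K),
          (fun α => φ (@Function.update _ _ i1 a (v i) c (σ i α))) =
          @Function.update _ _ i2 (fun α => φ (a (σ i α))) (v0 (n + 1) d) (φ c) := by
        intro i1 i2 c
        cases Subsingleton.elim i1 i2
        funext α
        by_cases h : α = v0 (n + 1) d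
        · subst h
          rw [Function.update_self, Function.update_self]
        · rw [Function.update_of_ne h, Function.update_of_ne]
          intro h5
          exact h (hσi i h5)
      by_cases h0 : aeval (fun α => φ (a (σ i α))) Δ = 0
      · refine ⟨∅, by simp, ?_⟩
        intro c hc
        exfalso
        apply hc.1
        rw [hmem, eval_key]
        rw [hupd _ (fun x y => Classical.propDecidable (x = y)) c]
        rw [@aeval_update k _ _ (fun x y => Classical.propDecidable (x = y)) Δ _ _ hvars _]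
        exact h0
      · obtain ⟨⟨Z, hZ, hZc⟩, _⟩ := hk k (fun α => φ (a (σ i α))) h0
        choose s hs using hφs
        refine ⟨Z.image s, Finset.card_image_le.trans hZ, ?_⟩
        intro c hc
        refine ⟨s (φ c), Finset.mem_image_of_mem _ ?_, ?_⟩
        · apply hZc
          have h5 := hc.2.2
          rw [hmem, eval_key, hupd _ (fun x y => Classical.propDecidable (x = y)) c] at h5
          rw [← h5]
          congr 2
          exact update_inst _ _ _ _ _
        · rw [hmem, map_sub, hs, sub_self])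
  refine ⟨C, ?_⟩
  intro M W hM a₀
  filter_upwards [hC M W hM a₀] with H hH
  refine le_trans ?_ hH
  rw [Nat.cast_le]
  apply Finset.card_le_card
  intro g hg
  rw [Finset.mem_filter] at hg ⊢
  refine ⟨hg.1, ?_⟩
  obtain ⟨𝔭, hfar, hno⟩ := hg.2
  refine ⟨𝔭, hfar, ?_⟩
  intro i
  by_contra hcon
  rw [not_or] at hcon
  apply hno
  refine ⟨i, ?_⟩
  have h𝔭 := hfar.1
  obtain ⟨k, _, φ, hφ, hφs⟩ := exists_residue 𝔭 h𝔭
  have hmem : ∀ x, x ∈ 𝔭 ↔ φ x = 0 := by
    intro x
    rw [← hφ, RingHom.mem_ker]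
  apply (h3 𝔭 (rename (Equiv.swap 0 i) (form (pt a₀ W g)))).1 k φ hφ hφs
  rw [h4.1, map_form]
  have h5 := hcon.1
  rw [hmem, eval_key] at h5
  have h6 := (hk k (fun α => φ (pt a₀ W g (σ i α))) h5).2.1
  have h7 : (aeval (fun j : {j : Mon (n + 1) d // j ≠ v0 (n + 1) d} =>
      (fun α => φ (pt a₀ W g (σ i α))) j.1) R ≠ 0 ∨
      aeval (fun α => φ (pt a₀ W g (σ i α))) χ ≠ 0) := by
    by_contra h8
    push Not at h8
    apply hcon.2
    refine ⟨hcon.1, ?_, ?_⟩
    · rw [hmem, eval_key]
      exact h8.1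
    · rw [hmem, eval_key]
      exact h8.2
  have h9 := h6 h7
  rw [Equiv.symm_swap]
  exact h9

end Pool.Agent.Q195.ND
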