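import Pool.Agent.Q46.ND.StmS

set_option autoImplicit false

/-! Job SC of project ND (helper46): weighted Schwartz-Zippel lemma. -/

open MvPolynomial
open scoped Classical

namespace Pool.Agent.Q195.ND

open Pool.Agent.Q46.ND

lemma mem_pi {O J : Type} [Fintype J] [DecidableEq J] (B : Finset O) (g : J → O) :
    g ∈ (Fintype.piFinset fun _ : J => B) ↔ ∀ j, g j ∈ B := Fintype.mem_piFinset

lemma sz_fin {O k : Type} [Field k] (φ : O → k) (B : Finset O) (μ : ℕ)
    (hμ : ∀ z : k, (B.filter fun g => φ g = z).card ≤ μ) :
    ∀ (n : ℕ) (P : MvPolynomial (Fin n) k), P ≠ 0 →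
    ((Fintype.piFinset fun _ : Fin n => B).filter fun g => eval (fun j => φ (g j)) P = 0).card ≤
      P.totalDegree * μ * B.card ^ (n - 1) := by
  intro n
  induction n with
  | zero =>
    intro P hP
    have h0 : ((Fintype.piFinset fun _ : Fin 0 => B).filter
        fun g => eval (fun j => φ (g j)) P = 0) = ∅ := by
      rw [Finset.filter_eq_empty_iff]
      intro g _ h
      apply hP
      rw [P.eq_C_of_isEmpty] at h ⊢
      rw [eval_C] at h
      rw [h, C_0]
    rw [h0]
    simp
  | succ n ih =>
    intro P hP
    set p' := finSuccEquiv k n P with hp'
    set D := p'.natDegree with hD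
    set L := p'.leadingCoeff with hL
    have hp0 : p' ≠ 0 := EmbeddingLike.map_ne_zero_iff.2 hP
    have hL0 : L ≠ 0 := Polynomial.leadingCoeff_ne_zero.mpr hp0
    have hdeg : L.totalDegree + D ≤ P.totalDegree :=
      totalDegree_coeff_finSuccEquiv_add_le P D (by
        change (finSuccEquiv k n P).coeff (finSuccEquiv k n P).natDegree ≠ 0
        exact hL0)
    have hcons : ∀ g : Fin (n + 1) → O, eval (fun j => φ (g j)) P =
        Polynomial.eval (φ (g 0)) (Polynomial.map (eval fun j => φ (Fin.tail g j)) p') := by
      intro g
      rw [← eval_eq_eval_mv_eval']
      congr 1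
      apply congrArg
      funext j
      refine Fin.cases ?_ (fun i => ?_) j
      · simp
      · simp [Fin.tail]
    set A := (Fintype.piFinset fun _ : Fin (n + 1) => B).filter
      fun g => eval (fun j => φ (g j)) P = 0 with hA
    set A1 := A.filter fun g => eval (fun j => φ (Fin.tail g j)) L = 0 with hA1
    set A2 := A.filter fun g => ¬ eval (fun j => φ (Fin.tail g j)) L = 0 with hA2
    have hcard : A.card = A1.card + A2.card :=
      (Finset.card_filter_add_card_filter_not _).symm
    have inj0 : ∀ (b : Fin n → O) (S : Finset (Fin (n + 1) → O)),
        (∀ g ∈ S, Fin.tail g = b) → Set.InjOn (fun g : Fin (n + 1) → O => g 0) S := by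
      intro b S hS g hg g' hg' h
      have e1 := hS g hg
      have e2 := hS g' hg'
      rw [← Fin.cons_self_tail g, ← Fin.cons_self_tail g', e1, e2]
      simp only at h
      rw [h]
    have b1 : A1.card ≤ B.card * ((Fintype.piFinset fun _ : Fin n => B).filter
        fun g => eval (fun j => φ (g j)) L = 0).card := by
      apply Finset.card_le_mul_card_image_of_maps_to (f := Fin.tail)
      · intro g hg
        rw [hA1, Finset.mem_filter, hA, Finset.mem_filter, mem_pi] at hg
        rw [Finset.mem_filter, mem_pi]
        exact ⟨fun j => hg.1.1 _, hg.2⟩
      · intro b _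
        apply Finset.card_le_card_of_injOn (fun g => g 0)
        · intro g hg
          rw [Finset.mem_coe, Finset.mem_filter, hA1, Finset.mem_filter, hA,
            Finset.mem_filter, mem_pi] at hg
          exact hg.1.1.1 0
        · apply inj0 b
          intro g hg
          exact (Finset.mem_filter.mp hg).2
    have b2 : A2.card ≤ (D * μ) * (Fintype.piFinset fun _ : Fin n => B).card := by
      apply Finset.card_le_mul_card_image_of_maps_to (f := Fin.tail)
      · intro g hg
        rw [hA2, Finset.mem_filter, hA, Finset.mem_filter, mem_pi] at hg
        rw [mem_pi]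
        exact fun j => hg.1.1 _
      · intro b _
        by_cases hb : eval (fun j => φ (b j)) L = 0
        · have : (A2.filter fun g => Fin.tail g = b) = ∅ := by
            rw [Finset.filter_eq_empty_iff]
            intro g hg hgb
            rw [hA2, Finset.mem_filter, hgb] at hg
            exact hg.2 hb
          rw [this]
          simp
        · set q := Polynomial.map (eval fun j => φ (b j)) p' with hq
          have hq0 : q ≠ 0 := by
            intro h
            apply hb
            have h1 := congrArg (fun r => Polynomial.coeff r D) h
            simp only [hq, Polynomial.coeff_map, Polynomial.coeff_zero] at h1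
            exact h1
          have hqD : q.natDegree ≤ D := Polynomial.natDegree_map_le
          have s1 : (A2.filter fun g => Fin.tail g = b).card ≤
              (B.filter fun x => φ x ∈ q.roots.toFinset).card := by
            apply Finset.card_le_card_of_injOn (fun g => g 0)
            · intro g hg
              rw [Finset.mem_coe, Finset.mem_filter, hA2, Finset.mem_filter, hA,
                Finset.mem_filter, mem_pi] at hg
              rw [Finset.mem_coe, Finset.mem_filter, Multiset.mem_toFinset,
                Polynomial.mem_roots hq0]
              refine ⟨hg.1.1.1 0, ?_⟩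
              have h2 := hg.1.1.2
              rw [hcons, hg.2] at h2
              exact h2
            · apply inj0 b
              intro g hg
              exact (Finset.mem_filter.mp hg).2
          refine s1.trans ?_
          have s2 : (B.filter fun x => φ x ∈ q.roots.toFinset) ⊆
              q.roots.toFinset.biUnion fun z => B.filter fun x => φ x = z := by
            intro x hx
            rw [Finset.mem_filter] at hx
            rw [Finset.mem_biUnion]
            exact ⟨φ x, hx.2, Finset.mem_filter.mpr ⟨hx.1, rfl⟩⟩
          refine (Finset.card_le_card s2).trans (Finset.card_biUnion_le.trans ?_)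
          refine (Finset.sum_le_card_nsmul _ _ μ fun z _ => hμ z).trans ?_
          rw [smul_eq_mul]
          apply Nat.mul_le_mul_right
          refine (Multiset.toFinset_card_le _).trans ?_
          exact (Polynomial.card_roots' q).trans hqD
    have hcB : (Fintype.piFinset fun _ : Fin n => B).card = B.card ^ n := by
      rw [Fintype.card_piFinset, Finset.prod_const, Finset.card_univ, Fintype.card_fin]
    have hLb : B.card * (L.totalDegree * μ * B.card ^ (n - 1)) ≤
        L.totalDegree * μ * B.card ^ n := by
      rcases Nat.eq_zero_or_pos n with hn | hn
      · subst hn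
        have : L.totalDegree = 0 := by
          rw [L.eq_C_of_isEmpty, totalDegree_C]
        rw [this]
        simp
      · have : B.card ^ n = B.card * B.card ^ (n - 1) := by
          rw [← pow_succ']
          congr 1
          omega
        rw [this]
        apply le_of_eq
        ring
    rw [hcard, Nat.add_sub_cancel]
    calc A1.card + A2.card ≤ B.card * (L.totalDegree * μ * B.card ^ (n - 1))
          + (D * μ) * B.card ^ n := by
          rw [hcB] at b2
          exact Nat.add_le_add (b1.trans (Nat.mul_le_mul_left _ (ih L hL0))) b2
      _ ≤ L.totalDegree * μ * B.card ^ n + (D * μ) * B.card ^ n := Nat.add_le_add_right hLb _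
      _ = (L.totalDegree + D) * (μ * B.card ^ n) := by ring
      _ ≤ P.totalDegree * (μ * B.card ^ n) := Nat.mul_le_mul_right _ hdeg
      _ = P.totalDegree * μ * B.card ^ n := by ring

theorem t_SC : P_SC := by
  intro O k J _ _ φ B μ hμ P hP
  set e := Fintype.equivFin J with he
  have h1 := sz_fin φ B μ hμ (Fintype.card J) (rename e P) (by
    intro h
    apply hP
    apply rename_injective e e.injective
    rw [h, map_zero])
  have hdeg : (rename e P).totalDegree ≤ P.totalDegree := totalDegree_rename_le e P
  refine le_trans ?_ (h1.trans ?_)
  · apply Finset.card_le_card_of_injOn (fun g => g ∘ e.symm)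
    · intro g hg
      rw [Finset.mem_coe, Finset.mem_filter, mem_pi] at hg
      rw [Finset.mem_coe, Finset.mem_filter, mem_pi]
      refine ⟨fun j => hg.1 _, ?_⟩
      rw [eval_rename]
      have : ((fun j => φ ((g ∘ e.symm) j)) ∘ e) = fun j => φ (g j) := by
        funext j
        simp
      rw [this]
      exact hg.2
    · intro g _ g' _ h
      funext j
      have := congrFun h (e j)
      simpa using this
  · exact Nat.mul_le_mul_right _ (Nat.mul_le_mul_right _ hdeg)

end Pool.Agent.Q195.ND
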