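import Pool.Agent.Q46.ND.StmS

set_option autoImplicit false

/-! Job SD of project ND (helper46): affine substitution. -/

open MvPolynomial

namespace Pool.Agent.Q195.ND

open Pool.Agent.Q46.ND

lemma totalDegree_affine_le {J k : Type} [Field k] (a : J → k) (w : k) (q : MvPolynomial J k) :
    (aeval (fun j => C (a j) + C w * X j : J → MvPolynomial J k) q).totalDegree
      ≤ q.totalDegree := by
  rw [aeval_def, eval₂_eq]
  refine (totalDegree_finsetSum _ _).trans ?_
  apply Finset.sup_le
  intro d hd
  refine (totalDegree_mul _ _).trans ?_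
  have h1 : (algebraMap k (MvPolynomial J k) (coeff d q)).totalDegree = 0 := by
    rw [MvPolynomial.algebraMap_eq, totalDegree_C]
  rw [h1, zero_add]
  refine (totalDegree_finsetProd _ _).trans ?_
  have h2 : ∀ i ∈ d.support,
      ((C (a i) + C w * X i : MvPolynomial J k) ^ (d i)).totalDegree ≤ d i := by
    intro i _
    refine (totalDegree_pow _ _).trans ?_
    have h3 : (C (a i) + C w * X i : MvPolynomial J k).totalDegree ≤ 1 := by
      refine (totalDegree_add _ _).trans ?_
      apply max_le
      · rw [totalDegree_C]; exact Nat.zero_le _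
      · refine (totalDegree_mul _ _).trans ?_
        rw [totalDegree_C, totalDegree_X, zero_add]
    calc d i * _ ≤ d i * 1 := Nat.mul_le_mul_left _ h3
      _ = d i := mul_one _
  refine (Finset.sum_le_sum h2).trans ?_
  exact le_totalDegree hd

theorem t_SD : P_SD := by
  intro O k J _ _ φ R hR W hW a₀
  set s : J → MvPolynomial J k := fun j => C (φ (a₀ j)) + C (φ W) * X j with hs
  set P : MvPolynomial J k := aeval s (map φ R) with hP
  refine ⟨P, ?_, ?_, ?_⟩
  · intro h0
    apply hR
    have h1 : aeval (fun j => C (φ W)⁻¹ * (X j - C (φ (a₀ j))) : J → MvPolynomial J k) P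
        = map φ R := by
      rw [hP]
      have h2 : (aeval (fun j => C (φ W)⁻¹ * (X j - C (φ (a₀ j))) : J → MvPolynomial J k)).comp
          (aeval s) = AlgHom.id k (MvPolynomial J k) := by
        apply MvPolynomial.algHom_ext
        intro j
        rw [AlgHom.comp_apply, aeval_X, hs]
        simp only [map_add, map_mul, aeval_X, AlgHom.id_apply]
        have h3 : ∀ c : k, (aeval (fun j => C (φ W)⁻¹ * (X j - C (φ (a₀ j))) :
            J → MvPolynomial J k)) (C c) = C c := by
          intro c
          rw [← MvPolynomial.algebraMap_eq, AlgHom.commutes]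
        rw [h3, h3, ← mul_assoc, ← C_mul, mul_inv_cancel₀ hW, C_1, one_mul]
        ring
      have h4 := congrArg (fun f => f (map φ R)) h2
      exact h4
    rw [← h1, h0, map_zero]
  · refine (totalDegree_affine_le _ _ _).trans ?_
    unfold totalDegree
    exact Finset.sup_mono (support_map_subset _ _)
  · intro g
    rw [hP, ← aeval_eq_eval]
    have h5 : aeval (fun j => φ (g j)) (aeval s (map φ R))
        = aeval (fun j => φ (a₀ j + W * g j)) (map φ R) := by
      have h6 := MvPolynomial.comp_aeval (R := k) s (aeval (fun j => φ (g j)) :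
        MvPolynomial J k →ₐ[k] k)
      have h7 := congrArg (fun f => f (map φ R)) h6
      simp only [AlgHom.comp_apply] at h7
      rw [h7]
      congr 2
      funext j
      rw [hs]
      simp
    have h8 : (aeval (fun j => φ (a₀ j + W * g j)) : MvPolynomial J k →ₐ[k] k) (map φ R)
        = eval (fun j => φ (a₀ j + W * g j)) (map φ R) := by
      rw [aeval_eq_eval]
    rw [h5, h8, eval_map, eval₂_comp]
    rfl

end Pool.Agent.Q195.ND
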