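import Pool.Agent.Q46.ND.StmS

set_option autoImplicit false

/-! Job SF of project ND (helper46): sum of `1 / N𝔭 ^ 2` over prime ideals. -/

open NumberField
open scoped Classical

namespace Pool.Agent.Q195.ND

open Pool.Agent.Q46.ND

lemma dvd_of_mem_ideal {R : Type} [CommRing R] {I : Ideal R} (hI : I ≠ ⊤) {p n : ℕ}
    (hp : p.Prime) (h1 : (p : R) ∈ I) (h2 : (n : R) ∈ I) : p ∣ n := by
  by_contra h
  have hc : IsCoprime (p : ℤ) (n : ℤ) := by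
    rw [Nat.isCoprime_iff_coprime]
    exact (Nat.Prime.coprime_iff_not_dvd hp).mpr h
  obtain ⟨a, b, hab⟩ := hc
  apply hI
  rw [Ideal.eq_top_iff_one]
  have h3 : ((a * p + b * n : ℤ) : R) = 1 := by rw [hab]; simp
  rw [← h3]
  push_cast
  exact I.add_mem (I.mul_mem_left _ h1) (I.mul_mem_left _ h2)

lemma le_absNorm {K : Type} [Field K] [NumberField K] {𝔭 : Ideal (𝓞 K)} (h : 𝔭 ≠ ⊤) {p : ℕ}
    (hp : p.Prime) (h1 : (p : 𝓞 K) ∈ 𝔭) : p ≤ Ideal.absNorm 𝔭 := by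
  apply Nat.le_of_dvd
  · rw [Nat.pos_iff_ne_zero]
    intro h0
    rw [Ideal.absNorm_eq_zero_iff] at h0
    rw [h0, Ideal.mem_bot] at h1
    have : p = 0 := by exact_mod_cast h1
    exact hp.ne_zero this
  · exact dvd_of_mem_ideal h hp h1 (Ideal.absNorm_mem 𝔭)

lemma exists_over (K : Type) [Field K] [NumberField K] (p : ℕ) (hp : p.Prime) :
    ∃ S : Finset (Ideal (𝓞 K)), (∀ 𝔭, 𝔭 ∈ S ↔ 𝔭.IsMaximal ∧ (p : 𝓞 K) ∈ 𝔭) ∧
      S.card ≤ Module.finrank ℚ K := by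
  have hF : Fact p.Prime := ⟨hp⟩
  have hm : (Ideal.span {(p : ℤ)}).IsMaximal := Int.ideal_span_isMaximal_of_prime p
  have hp0 : Ideal.span {(p : ℤ)} ≠ ⊥ := by
    rw [Ne, Ideal.span_singleton_eq_bot]
    exact_mod_cast hp.ne_zero
  refine ⟨IsDedekindDomain.primesOverFinset (Ideal.span {(p : ℤ)}) (𝓞 K), ?_, ?_⟩
  · intro 𝔭
    rw [IsDedekindDomain.mem_primesOverFinset_iff hp0]
    constructor
    · rintro ⟨h1, h2⟩
      have hmem : (p : 𝓞 K) ∈ 𝔭 := by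
        have h3 : (p : ℤ) ∈ Ideal.span {(p : ℤ)} := Ideal.mem_span_singleton_self _
        rw [h2.over, Ideal.under_def, Ideal.mem_comap] at h3
        simpa using h3
      refine ⟨?_, hmem⟩
      apply Ring.DimensionLEOne.maximalOfPrime _ h1
      intro h0
      rw [h0, Ideal.mem_bot] at hmem
      have : p = 0 := by exact_mod_cast hmem
      exact hp.ne_zero this
    · rintro ⟨h1, h2⟩
      refine ⟨h1.isPrime, ⟨?_⟩⟩
      apply Ideal.IsMaximal.eq_of_le hm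
      · rw [Ideal.under_def]
        have := Ideal.comap_ne_top (algebraMap ℤ (𝓞 K)) h1.ne_top
        exact this
      · rw [Ideal.span_singleton_le_iff_mem, Ideal.under_def, Ideal.mem_comap]
        simpa using h2
  · exact Ideal.card_primesOverFinset_le_finrank (𝓞 K) ℚ K hp0

theorem t_SF : P_SF := by
  intro K _ _
  refine ⟨Module.finrank ℚ K, ?_⟩
  intro M H hM
  have hS := fun p : {p : ℕ // p.Prime} => exists_over K p.1 p.2
  choose S hS1 hS2 using hS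
  set T := (Finset.Ioc M H).filter Nat.Prime with hT
  set S' : ℕ → Finset (Ideal (𝓞 K)) := fun p => if h : p.Prime then S ⟨p, h⟩ else ∅ with hS'
  have hmem : ∀ p : ℕ, p.Prime → ∀ 𝔭, 𝔭 ∈ S' p ↔ 𝔭.IsMaximal ∧ (p : 𝓞 K) ∈ 𝔭 := by
    intro p hp 𝔭
    rw [hS']
    simp only [hp, dif_pos]
    exact hS1 ⟨p, hp⟩ 𝔭
  have hcard : ∀ p : ℕ, p.Prime → (S' p).card ≤ Module.finrank ℚ K := by
    intro p hp
    rw [hS']
    simp only [hp, dif_pos]
    exact hS2 ⟨p, hp⟩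
  refine ⟨T.biUnion S', ?_, ?_⟩
  · intro 𝔭
    rw [Finset.mem_biUnion]
    constructor
    · rintro ⟨p, hp, h⟩
      rw [hT, Finset.mem_filter, Finset.mem_Ioc] at hp
      rw [hmem p hp.2] at h
      exact ⟨h.1, p, hp.2, hp.1.1, hp.1.2, h.2⟩
    · rintro ⟨h, p, hp, h1, h2, h3⟩
      refine ⟨p, ?_, (hmem p hp 𝔭).mpr ⟨h, h3⟩⟩
      rw [hT, Finset.mem_filter, Finset.mem_Ioc]
      exact ⟨⟨h1, h2⟩, hp⟩
  · have h1 : ∑ 𝔭 ∈ T.biUnion S', (1 : ℝ) / (Ideal.absNorm 𝔭 : ℝ) ^ 2 ≤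
        ∑ p ∈ T, ∑ 𝔭 ∈ S' p, (1 : ℝ) / (Ideal.absNorm 𝔭 : ℝ) ^ 2 := by
      rw [Finset.sum_biUnion]
      intro p hp q hq hpq
      rw [hT, Finset.mem_coe, Finset.mem_filter] at hp hq
      rw [Function.onFun, Finset.disjoint_left]
      intro 𝔭 h1 h2
      rw [hmem p hp.2] at h1
      rw [hmem q hq.2] at h2
      apply hpq
      exact (Nat.prime_dvd_prime_iff_eq hp.2 hq.2).mp
        (dvd_of_mem_ideal h1.1.ne_top hp.2 h1.2 h2.2)
    have h2 : ∀ p ∈ T, ∑ 𝔭 ∈ S' p, (1 : ℝ) / (Ideal.absNorm 𝔭 : ℝ) ^ 2 ≤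
        (Module.finrank ℚ K : ℝ) * ((p : ℝ) ^ 2)⁻¹ := by
      intro p hp
      rw [hT, Finset.mem_filter] at hp
      have hp0 : (0 : ℝ) < p := by exact_mod_cast hp.2.pos
      have h3 : ∀ 𝔭 ∈ S' p, (1 : ℝ) / (Ideal.absNorm 𝔭 : ℝ) ^ 2 ≤ ((p : ℝ) ^ 2)⁻¹ := by
        intro 𝔭 h𝔭
        rw [hmem p hp.2] at h𝔭
        rw [one_div]
        apply inv_anti₀ (by positivity)
        apply pow_le_pow_left₀ hp0.le
        exact_mod_cast le_absNorm h𝔭.1.ne_top hp.2 h𝔭.2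
      refine (Finset.sum_le_card_nsmul _ _ _ h3).trans ?_
      rw [nsmul_eq_mul]
      apply mul_le_mul_of_nonneg_right _ (by positivity)
      exact_mod_cast hcard p hp.2
    have h4 : ∑ p ∈ T, ((p : ℝ) ^ 2)⁻¹ ≤ 1 / (M : ℝ) := by
      rcases le_or_gt M H with hMH | hMH
      · have h5 : ∑ p ∈ T, ((p : ℝ) ^ 2)⁻¹ ≤ ∑ p ∈ Finset.Ioc M H, ((p : ℝ) ^ 2)⁻¹ := by
          apply Finset.sum_le_sum_of_subset_of_nonneg (Finset.filter_subset _ _)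
          intro i _ _
          positivity
        have h6 := sum_Ioc_inv_sq_le_sub (α := ℝ) (by omega : M ≠ 0) hMH
        have h7 : (0 : ℝ) ≤ (H : ℝ)⁻¹ := by positivity
        rw [one_div]
        linarith
      · have : T = ∅ := by
          rw [hT, Finset.Ioc_eq_empty (by omega), Finset.filter_empty]
        rw [this, Finset.sum_empty]
        positivity
    calc _ ≤ ∑ p ∈ T, ∑ 𝔭 ∈ S' p, (1 : ℝ) / (Ideal.absNorm 𝔭 : ℝ) ^ 2 := h1
      _ ≤ ∑ p ∈ T, (Module.finrank ℚ K : ℝ) * ((p : ℝ) ^ 2)⁻¹ := Finset.sum_le_sum h2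
      _ = (Module.finrank ℚ K : ℝ) * ∑ p ∈ T, ((p : ℝ) ^ 2)⁻¹ := by rw [Finset.mul_sum]
      _ ≤ (Module.finrank ℚ K : ℝ) * (1 / (M : ℝ)) :=
          mul_le_mul_of_nonneg_left h4 (Nat.cast_nonneg _)
      _ = _ := by ring

end Pool.Agent.Q195.ND
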