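import Pool.Agent.Q195.ND.SA
import Pool.Agent.Q195.ND.SC
import Pool.Agent.Q195.ND.SD

set_option autoImplicit false

/-! Jobs SI, SL, SM of project ND (helper46). -/

open MvPolynomial NumberField Filter
open scoped Classical

namespace Pool.Agent.Q195.ND

open Pool.Agent.Q46.ND

lemma card_index_pos {K ι : Type} [Field K] [NumberField K] [Fintype ι]
    (ω : Module.Basis ι ℤ (𝓞 K)) : 0 < Fintype.card ι := by
  rw [Fintype.card_pos_iff]
  exact ω.index_nonempty

lemma le_card_box {K ι : Type} [Field K] [NumberField K] [Fintype ι]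
    (ω : Module.Basis ι ℤ (𝓞 K)) (H : ℕ) : 2 * H + 1 ≤ (box ω H).card := by
  rw [(t_SA ω H).2.1]
  exact Nat.le_self_pow (card_index_pos ω).ne' _

lemma card_zeros_le {K ι J : Type} [Field K] [NumberField K] [Fintype ι] [Fintype J]
    (ω : Module.Basis ι ℤ (𝓞 K)) (R : MvPolynomial J (𝓞 K)) (hR : R ≠ 0) (W : ℕ) (hW : 1 ≤ W)
    (a₀ : J → 𝓞 K) (H : ℕ) :
    ((boxJ ω J H).filter fun g => eval (pt a₀ W g) R = 0).card ≤
      R.totalDegree * (box ω H).card ^ (Fintype.card J - 1) := by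
  have hinj : Function.Injective (algebraMap (𝓞 K) K) := FaithfulSMul.algebraMap_injective _ _
  have h0 : map (algebraMap (𝓞 K) K) R ≠ 0 := by
    intro h
    apply hR
    apply map_injective _ hinj
    rw [h, map_zero]
  have hW0 : algebraMap (𝓞 K) K (W : 𝓞 K) ≠ 0 := by
    rw [map_natCast]
    have : W ≠ 0 := by omega
    exact_mod_cast this
  obtain ⟨P, hP0, hPd, hPe⟩ := t_SD (algebraMap (𝓞 K) K) R h0 (W : 𝓞 K) hW0 a₀
  have h1 := t_SC (J := J) (algebraMap (𝓞 K) K) (box ω H) 1 (by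
    intro z
    rw [Finset.card_le_one]
    intro a ha b hb
    rw [Finset.mem_filter] at ha hb
    exact hinj (ha.2.trans hb.2.symm)) P hP0
  have h2 : ((boxJ ω J H).filter fun g => eval (pt a₀ W g) R = 0) ⊆
      (Fintype.piFinset fun _ : J => box ω H).filter
        fun g => eval (fun j => algebraMap (𝓞 K) K (g j)) P = 0 := by
    intro g hg
    rw [Finset.mem_filter] at hg ⊢
    refine ⟨hg.1, ?_⟩
    rw [hPe]
    have h3 : eval (fun j => a₀ j + (W : 𝓞 K) * g j) R = 0 := hg.2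
    rw [h3, map_zero]
  refine (Finset.card_le_card h2).trans (h1.trans ?_)
  rw [mul_one]
  exact Nat.mul_le_mul_right _ hPd

theorem t_SI : P_SI := by
  intro K ι J _ _ _ _ ω R hR W hW a₀ ε hε
  obtain ⟨N, hN⟩ := exists_nat_gt ((R.totalDegree : ℝ) / ε)
  filter_upwards [eventually_ge_atTop N] with H hH
  have h1 := card_zeros_le ω R hR W hW a₀ H
  have hD : (R.totalDegree : ℝ) ≤ ε * ((box ω H).card : ℝ) := by
    rw [div_lt_iff₀ hε] at hN
    have h2 : (N : ℝ) ≤ (box ω H).card := by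
      have := le_card_box ω H
      exact_mod_cast (by omega : N ≤ (box ω H).card)
    have := mul_le_mul_of_nonneg_left h2 hε.le
    linarith
  rcases Nat.eq_zero_or_pos (Fintype.card J) with hn | hn
  · have hJ : IsEmpty J := Fintype.card_eq_zero_iff.mp hn
    have hd : R.totalDegree = 0 := by
      rw [R.eq_C_of_isEmpty, totalDegree_C]
    rw [hd, zero_mul] at h1
    have h2 : ((boxJ ω J H).filter fun g => eval (pt a₀ W g) R = 0).card = 0 := by omega
    rw [h2, Nat.cast_zero]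
    positivity
  · have h3 : (((boxJ ω J H).filter fun g => eval (pt a₀ W g) R = 0).card : ℝ) ≤
        (R.totalDegree : ℝ) * ((box ω H).card : ℝ) ^ (Fintype.card J - 1) := by
      exact_mod_cast h1
    refine h3.trans ?_
    have h4 : ((box ω H).card : ℝ) ^ Fintype.card J
        = (box ω H).card * ((box ω H).card : ℝ) ^ (Fintype.card J - 1) := by
      rw [← pow_succ']
      congr 1
      omega
    rw [h4, ← mul_assoc]
    exact mul_le_mul_of_nonneg_right hD (by positivity)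

theorem t_SL (h : P_SK) : P_SL := by
  intro K ι J _ _ _ _ ω κ _ P hP
  set e := Fintype.equivFin J with he
  have hcop : ∀ Q : MvPolynomial (Fin (Fintype.card J)) K,
      (∀ i, Q ∣ map (algebraMap (𝓞 K) K) (rename e (P i))) → IsUnit Q := by
    intro Q hQ
    have h1 : IsUnit (rename e.symm Q) := by
      apply hP
      intro i
      have h2 := map_dvd (rename e.symm : MvPolynomial (Fin (Fintype.card J)) K →ₐ[K]
        MvPolynomial J K) (hQ i)
      rw [← map_rename, rename_rename] at h2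
      simpa using h2
    have h3 := h1.map (rename e : MvPolynomial J K →ₐ[K] MvPolynomial (Fin (Fintype.card J)) K)
    rw [rename_rename] at h3
    simpa using h3
  obtain ⟨C, hC⟩ := h ω (Fintype.card J) (fun i => rename e (P i)) hcop
  refine ⟨C, ?_⟩
  intro M W hM a₀
  have h4 := hC M W hM (fun j => a₀ (e.symm j))
  filter_upwards [h4] with H hH
  rw [Fintype.card_fin] at hH
  refine le_trans ?_ hH
  rw [Nat.cast_le]
  apply Finset.card_le_card_of_injOn (fun g => g ∘ e.symm)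
  · intro g hg
    rw [Finset.mem_coe, Finset.mem_filter, mem_boxJ] at hg
    rw [Finset.mem_coe, Finset.mem_filter, mem_boxJ]
    refine ⟨fun j => hg.1 _, ?_⟩
    obtain ⟨𝔭, h5, h6⟩ := hg.2
    refine ⟨𝔭, h5, fun i => ?_⟩
    rw [eval_rename]
    have : (pt (fun j => a₀ (e.symm j)) W (g ∘ e.symm)) ∘ e = pt a₀ W g := by
      funext j
      simp [pt]
    rw [this]
    exact h6 i
  · intro g _ g' _ h
    funext j
    have := congrFun h (e j)
    simpa using this

theorem t_SM (hH : P_SH) (hL : P_SL) : P_SM := by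
  intro K ι J _ _ _ _ ω κ _ Δ hΔ v R hR m B hB1 hB2
  obtain ⟨C, hC⟩ := hL ω Δ hΔ
  have h1 : ∀ i, ∃ C : ℝ, Rare ω J C fun M W a₀ g => ∃ 𝔭, Far M W 𝔭 ∧ B i (pt a₀ W g) 𝔭 :=
    fun i => hH ω (v i) (R i) (hR i) m (B i) (hB1 i) (hB2 i)
  choose D hD using h1
  refine ⟨C + ∑ i, D i, ?_⟩
  intro M W hM a₀
  have h2 := hC M W hM a₀
  have h3 : ∀ᶠ H : ℕ in atTop, ∀ i, (((boxJ ω J H).filter fun g =>
      ∃ 𝔭, Far M W 𝔭 ∧ B i (pt a₀ W g) 𝔭).card : ℝ) ≤
      D i / M * ((box ω H).card : ℝ) ^ Fintype.card J := by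
    rw [eventually_all]
    intro i
    exact hD i M W hM a₀
  filter_upwards [h2, h3] with H h4 h5
  have hsub : ((boxJ ω J H).filter fun g => ∃ 𝔭 : Ideal (𝓞 K), Far M W 𝔭 ∧
      ∀ i, eval (pt a₀ W g) (Δ i) ∈ 𝔭 ∨ B i (pt a₀ W g) 𝔭) ⊆
      ((boxJ ω J H).filter fun g => ∃ 𝔭 : Ideal (𝓞 K), Far M W 𝔭 ∧
        ∀ i, eval (pt a₀ W g) (Δ i) ∈ 𝔭) ∪
      Finset.univ.biUnion fun i => (boxJ ω J H).filter fun g =>
        ∃ 𝔭, Far M W 𝔭 ∧ B i (pt a₀ W g) 𝔭 := by
    intro g hg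
    rw [Finset.mem_filter] at hg
    obtain ⟨hg0, 𝔭, h6, h7⟩ := hg
    rw [Finset.mem_union]
    by_cases h8 : ∀ i, eval (pt a₀ W g) (Δ i) ∈ 𝔭
    · left
      rw [Finset.mem_filter]
      exact ⟨hg0, 𝔭, h6, h8⟩
    · right
      push Not at h8
      obtain ⟨i, hi⟩ := h8
      rw [Finset.mem_biUnion]
      refine ⟨i, Finset.mem_univ _, ?_⟩
      rw [Finset.mem_filter]
      exact ⟨hg0, 𝔭, h6, (h7 i).resolve_left hi⟩
  have h9 := (Finset.card_le_card hsub).trans ((Finset.card_union_le _ _).trans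
    (Nat.add_le_add_left Finset.card_biUnion_le _))
  have h10 : (((boxJ ω J H).filter fun g => ∃ 𝔭 : Ideal (𝓞 K), Far M W 𝔭 ∧
      ∀ i, eval (pt a₀ W g) (Δ i) ∈ 𝔭 ∨ B i (pt a₀ W g) 𝔭).card : ℝ) ≤
      (((boxJ ω J H).filter fun g => ∃ 𝔭 : Ideal (𝓞 K), Far M W 𝔭 ∧
        ∀ i, eval (pt a₀ W g) (Δ i) ∈ 𝔭).card : ℝ) +
      ∑ i, (((boxJ ω J H).filter fun g => ∃ 𝔭, Far M W 𝔭 ∧ B i (pt a₀ W g) 𝔭).card : ℝ) := by
    exact_mod_cast h9
  refine h10.trans ?_
  calc _ ≤ C / M * ((box ω H).card : ℝ) ^ Fintype.card J +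
        ∑ i, D i / M * ((box ω H).card : ℝ) ^ Fintype.card J :=
        add_le_add h4 (Finset.sum_le_sum fun i _ => h5 i)
    _ = (C + ∑ i, D i) / M * ((box ω H).card : ℝ) ^ Fintype.card J := by
        rw [← Finset.sum_mul, ← Finset.sum_div]
        ring

end Pool.Agent.Q195.ND
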